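import Mathlib

open Filter Topology

namespace Pool.Agent.Results.MP_0ebc21_nt.ExponentialGrowth

/-- `binom(n, 2) = n (n - 1) / 2` for an integer `n`. -/
def tri (n : ℤ) : ℤ := n * (n - 1) / 2

/-- The exponent of `q` in the `n`-th term of `Ψ(-q^a, q)`. -/
def expo (a : ℕ) (n : ℤ) : ℤ := a * tri (n + 1) + tri n

/-- The coefficient of the `n`-th term of `Ψ(-q^a, q)`: the sign `(-1)^binom(n+1,2)` coming
from `(-q^a)^binom(n+1,2)`, with a further minus sign for `n ≤ -1`. -/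
def sg (n : ℤ) : ℤ :=
  if 0 ≤ n then ((tri (n + 1)).negOnePow : ℤ) else -((tri (n + 1)).negOnePow : ℤ)

/-- The formal power series `Ψ(-q^a, q)`: the coefficient of `q^N` is the sum of the signs of all
the terms with exponent `N`. -/
noncomputable def Psi (a : ℕ) : PowerSeries ℤ :=
  PowerSeries.mk fun N => ∑ᶠ n : ℤ, if expo a n = (N : ℤ) then sg n else 0

/-! ### Elementary facts -/

lemma two_mul_tri (n : ℤ) : 2 * tri n = n * (n - 1) := by
  unfold tri
  exact Int.mul_ediv_cancel' (Int.even_mul_pred_self n).two_dvd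

lemma tri_nonneg (n : ℤ) : 0 ≤ tri n := by
  have h := two_mul_tri n
  rcases le_or_gt n 0 with h0 | h0 <;> nlinarith

lemma sq_le_expo {a : ℕ} (ha : 1 ≤ a) (n : ℤ) : n ^ 2 ≤ expo a n := by
  have h1 := two_mul_tri n
  have h2 := two_mul_tri (n + 1)
  have h3 := tri_nonneg (n + 1)
  have ha' : (1 : ℤ) ≤ a := by exact_mod_cast ha
  unfold expo
  nlinarith [mul_le_mul_of_nonneg_right ha' h3]

lemma expo_nonneg {a : ℕ} (ha : 1 ≤ a) (n : ℤ) : 0 ≤ expo a n :=
  (sq_nonneg n).trans (sq_le_expo ha n)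

lemma abs_sg (n : ℤ) : |sg n| = 1 := by
  unfold sg
  split_ifs
  · exact Int.abs_negOnePow _
  · rw [abs_neg]; exact Int.abs_negOnePow _

lemma abs_le_of_expo {a : ℕ} (ha : 1 ≤ a) {n : ℤ} {N : ℕ} (h : expo a n = N) :
    -(N : ℤ) ≤ n ∧ n ≤ N := by
  have h1 := sq_le_expo ha n
  rw [h] at h1
  constructor <;> nlinarith

/-- the coefficients as finite sums -/
lemma coeff_eq {a : ℕ} (ha : 1 ≤ a) (N : ℕ) :
    (Psi a).coeff N = ∑ n ∈ (Finset.Icc (-(N : ℤ)) N).filter (fun n => expo a n = N), sg n := by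
  unfold Psi
  rw [PowerSeries.coeff_mk, Finset.sum_filter]
  apply finsum_eq_sum_of_support_subset
  intro n hn
  rw [Function.mem_support] at hn
  have : expo a n = N := by
    by_contra h
    rw [if_neg h] at hn
    exact hn rfl
  rw [Finset.coe_Icc]
  exact abs_le_of_expo ha this

lemma abs_coeff_le {a : ℕ} (ha : 1 ≤ a) (N : ℕ) : |(Psi a).coeff N| ≤ 2 * N + 1 := by
  rw [coeff_eq ha]
  refine (Finset.abs_sum_le_sum_abs _ _).trans ?_
  simp only [abs_sg, Finset.sum_const, nsmul_eq_mul, mul_one]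
  have h := Finset.card_filter_le (Finset.Icc (-(N : ℤ)) N) (fun n => expo a n = N)
  rw [Int.card_Icc] at h
  have h2 : ((N : ℤ) + 1 - -(N : ℤ)).toNat = 2 * N + 1 := by omega
  rw [h2] at h
  exact_mod_cast h

/-! ### The analytic function -/

lemma summable_bound {x : ℝ} (hx0 : 0 ≤ x) (hx1 : x < 1) :
    Summable (fun N : ℕ => (2 * (N : ℝ) + 1) * x ^ N) := by
  have h1 : Summable (fun N : ℕ => (N : ℝ) ^ 1 * x ^ N) :=
    summable_pow_mul_geometric_of_norm_lt_one 1 (by rwa [Real.norm_of_nonneg hx0])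
  have h2 : Summable (fun N : ℕ => x ^ N) := summable_geometric_of_lt_one hx0 hx1
  have h3 := (h1.mul_left 2).add h2
  refine h3.congr (fun N => ?_)
  ring

lemma norm_term_le {a : ℕ} (ha : 1 ≤ a) (x : ℝ) (hx : 0 ≤ x) (N : ℕ) :
    ‖((Psi a).coeff N : ℝ) * x ^ N‖ ≤ (2 * (N : ℝ) + 1) * x ^ N := by
  rw [norm_mul, norm_pow, Real.norm_of_nonneg hx]
  apply mul_le_mul_of_nonneg_right _ (by positivity)
  rw [Real.norm_eq_abs, ← Int.cast_abs]
  exact_mod_cast abs_coeff_le ha N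

/-- The function `x ↦ Ψ(-x^a, x)`. -/
noncomputable def F (a : ℕ) (x : ℝ) : ℝ := ∑' N : ℕ, ((Psi a).coeff N : ℝ) * x ^ N

lemma summable_F {a : ℕ} (ha : 1 ≤ a) {x : ℝ} (hx0 : 0 ≤ x) (hx1 : x < 1) :
    Summable (fun N : ℕ => ‖((Psi a).coeff N : ℝ) * x ^ N‖) :=
  Summable.of_nonneg_of_le (fun _ => norm_nonneg _) (norm_term_le ha x hx0)
    (summable_bound hx0 hx1)

lemma continuousOn_F {a : ℕ} (ha : 1 ≤ a) {y : ℝ} (hy0 : 0 ≤ y) (hy1 : y < 1) :
    ContinuousOn (F a) (Set.Icc 0 y) := by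
  unfold F
  apply continuousOn_tsum (u := fun N : ℕ => (2 * (N : ℝ) + 1) * y ^ N)
  · intro N
    fun_prop
  · exact summable_bound hy0 hy1
  · intro N x hx
    refine (norm_term_le ha x hx.1 N).trans ?_
    have := pow_le_pow_left₀ hx.1 hx.2 N
    have h0 : (0 : ℝ) ≤ 2 * (N : ℝ) + 1 := by positivity
    exact mul_le_mul_of_nonneg_left this h0

/-- the terms over `ℤ` -/
noncomputable def f (a : ℕ) (x : ℝ) (n : ℤ) : ℝ := (sg n : ℝ) * x ^ (expo a n).toNat

lemma norm_f_le {a : ℕ} (ha : 1 ≤ a) {x : ℝ} (hx0 : 0 ≤ x) (hx1 : x < 1) (n : ℤ) :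
    ‖f a x n‖ ≤ x ^ n.natAbs := by
  unfold f
  rw [norm_mul, norm_pow, Real.norm_of_nonneg hx0]
  have h1 : ‖(sg n : ℝ)‖ = 1 := by
    rw [Real.norm_eq_abs, ← Int.cast_abs, abs_sg]; norm_num
  rw [h1, one_mul]
  apply pow_le_pow_of_le_one hx0 hx1.le
  have h2 := sq_le_expo ha n
  have h3 : (n.natAbs : ℤ) ≤ n ^ 2 := by
    rw [Int.natCast_natAbs]
    rcases abs_cases n with ⟨h, h'⟩ | ⟨h, h'⟩ <;> rw [h] <;> nlinarith
  omega

lemma summable_f {a : ℕ} (ha : 1 ≤ a) {x : ℝ} (hx0 : 0 ≤ x) (hx1 : x < 1) :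
    Summable (f a x) := by
  have hg : Summable (fun n : ℤ => x ^ n.natAbs) := by
    apply Summable.of_nat_of_neg_add_one
    · simpa using summable_geometric_of_lt_one hx0 hx1
    · have := (summable_nat_add_iff 1).2 (summable_geometric_of_lt_one hx0 hx1)
      refine this.congr (fun n => ?_)
      congr 1
  exact Summable.of_norm_bounded hg (norm_f_le ha hx0 hx1)

lemma hasSum_F {a : ℕ} (ha : 1 ≤ a) {x : ℝ} (hx0 : 0 ≤ x) (hx1 : x < 1) :
    HasSum (f a x) (F a x) := by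
  have h1 := (summable_f ha hx0 hx1).hasSum
  have h2 := h1.tsum_fiberwise (fun n => (expo a n).toNat)
  have h3 : ∀ N : ℕ, ∑' b : (fun n => (expo a n).toNat) ⁻¹' {N}, f a x b =
      ((Psi a).coeff N : ℝ) * x ^ N := by
    intro N
    rw [tsum_subtype ((fun n => (expo a n).toNat) ⁻¹' {N}) (f a x),
      tsum_eq_sum (s := (Finset.Icc (-(N : ℤ)) N).filter (fun n => expo a n = N))]
    · rw [coeff_eq ha, Int.cast_sum, Finset.sum_mul]
      apply Finset.sum_congr rfl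
      intro n hn
      rw [Finset.mem_filter] at hn
      have hn2 : (expo a n).toNat = N := by rw [hn.2]; simp
      rw [Set.indicator_of_mem (show n ∈ (fun n => (expo a n).toNat) ⁻¹' {N} from hn2)]
      unfold f
      rw [hn2]
    · intro n hn
      apply Set.indicator_of_notMem
      intro hmem
      apply hn
      have hmem' : (expo a n).toNat = N := hmem
      have h0 := expo_nonneg ha n
      have h4 : expo a n = N := by omega
      rw [Finset.mem_filter, Finset.mem_Icc]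
      exact ⟨abs_le_of_expo ha h4, h4⟩
  simp_rw [h3] at h2
  have h5 : F a x = ∑' n, f a x n := h2.tsum_eq
  rw [h5]
  exact h1

/-- the natural-number exponent -/
def e (a n : ℕ) : ℕ := a * (n * (n + 1) / 2) + n * (n - 1) / 2

/-- the paired terms -/
noncomputable def g (a : ℕ) (x : ℝ) (n : ℕ) : ℝ :=
  (sg n : ℝ) * (x ^ e a n * (1 - x ^ (2 * n + 1)))

lemma two_dvd_mul_succ (n : ℕ) : 2 * (n * (n + 1) / 2) = n * (n + 1) :=
  Nat.mul_div_cancel' (Nat.even_mul_succ_self n).two_dvd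

lemma two_dvd_mul_pred (n : ℕ) : 2 * (n * (n - 1) / 2) = n * (n - 1) :=
  Nat.mul_div_cancel' (Nat.even_mul_pred_self n).two_dvd

lemma tri_nat (n : ℕ) : tri (n : ℤ) = ((n * (n - 1) / 2 : ℕ) : ℤ) := by
  have h1 := two_mul_tri (n : ℤ)
  have h2 := two_dvd_mul_pred n
  have h3 : ((n * (n - 1) : ℕ) : ℤ) = (n : ℤ) * ((n : ℤ) - 1) := by
    rcases n with _ | n
    · simp
    · push_cast; simp
  have h4 : (2 : ℤ) * ((n * (n - 1) / 2 : ℕ) : ℤ) = ((n * (n - 1) : ℕ) : ℤ) := by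
    exact_mod_cast h2
  omega

lemma tri_nat_succ (n : ℕ) : tri ((n : ℤ) + 1) = ((n * (n + 1) / 2 : ℕ) : ℤ) := by
  have := tri_nat (n + 1)
  push_cast at this ⊢
  rw [this]
  simp [mul_comm]

lemma tri_neg (n : ℤ) : tri (-n) = tri (n + 1) := by
  have h1 := two_mul_tri (-n)
  have h2 := two_mul_tri (n + 1)
  have h3 : -n * (-n - 1) = (n + 1) * (n + 1 - 1) := by ring
  rw [h3] at h1
  omega

lemma tri_succ (n : ℤ) : tri (n + 1) = tri n + n := by
  have h1 := two_mul_tri n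
  have h2 := two_mul_tri (n + 1)
  have h3 : (n + 1) * (n + 1 - 1) = n * (n - 1) + 2 * n := by ring
  rw [h3] at h2
  omega

lemma pair_eq {a : ℕ} (x : ℝ) (n : ℕ) : f a x n + f a x (-((n : ℤ) + 1)) = g a x n := by
  have h1 : expo a (n : ℤ) = (e a n : ℤ) := by
    unfold expo e
    rw [tri_nat, tri_nat_succ]
    push_cast
    ring
  have h2 : expo a (-((n : ℤ) + 1)) = ((e a n + (2 * n + 1) : ℕ) : ℤ) := by
    have h3 : tri (-((n : ℤ) + 1) + 1) = tri ((n : ℤ) + 1) := by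
      rw [show (-((n : ℤ) + 1) + 1) = -(n : ℤ) by ring, tri_neg]
    have h4 : tri (-((n : ℤ) + 1)) = tri (n : ℤ) + (2 * n + 1) := by
      rw [tri_neg, tri_succ, tri_succ]
      ring
    have h5 := h1
    unfold expo at h5 ⊢
    rw [h3, h4]
    push_cast
    linarith
  have h6 : sg (-((n : ℤ) + 1)) = - sg n := by
    unfold sg
    rw [if_neg (by omega), if_pos (by omega)]
    rw [show (-((n : ℤ) + 1) + 1) = -(n : ℤ) by ring, tri_neg]
  unfold f g
  rw [h1, h2, h6, Int.toNat_natCast, Int.toNat_natCast, pow_add]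
  push_cast
  ring

lemma hasSum_g {a : ℕ} (ha : 1 ≤ a) {x : ℝ} (hx0 : 0 ≤ x) (hx1 : x < 1) :
    HasSum (g a x) (F a x) := by
  have h := (hasSum_F ha hx0 hx1).nat_add_neg_add_one
  have h2 : (fun n : ℕ => f a x n + f a x (-((n : ℤ) + 1))) = g a x := by
    funext n
    exact pair_eq x n
  rwa [h2] at h

lemma one_sub_pow_le {x : ℝ} (hx0 : 0 ≤ x) (k : ℕ) : 1 - x ^ k ≤ k * (1 - x) := by
  have h := one_add_mul_le_pow (a := x - 1) (by linarith) k
  have h2 : 1 + (x - 1) = x := by ring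
  rw [h2] at h
  linarith

/-- a linear lower bound for the exponents -/
lemma exp_lower (n : ℕ) : 6 + 4 * n ≤ (n + 3) * (n + 3 + 1) / 2 := by
  rw [Nat.le_div_iff_mul_le (by norm_num)]
  nlinarith [Nat.zero_le (n * n), Nat.le_mul_self n]

lemma abs_g_le {a : ℕ} {x y : ℝ} (hx0 : 0 < x) (hx1 : x < 1) (hy : x ^ a = y)
    (n : ℕ) : ‖g a x (n + 3)‖ ≤ (1 - x) * ((2 * n + 7) * (y ^ 6 * (y ^ 4) ^ n)) := by
  have hy0 : 0 < y := by rw [← hy]; positivity
  unfold g
  rw [norm_mul, norm_mul]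
  have h1 : ‖(sg ((n + 3 : ℕ) : ℤ) : ℝ)‖ = 1 := by
    rw [Real.norm_eq_abs, ← Int.cast_abs, abs_sg]; norm_num
  have h2 : ‖x ^ e a (n + 3)‖ ≤ y ^ 6 * (y ^ 4) ^ n := by
    rw [norm_pow, Real.norm_of_nonneg hx0.le]
    have h3 : y ^ 6 * (y ^ 4) ^ n = x ^ (a * (6 + 4 * n)) := by
      rw [← hy]; ring
    rw [h3]
    apply pow_le_pow_of_le_one hx0.le hx1.le
    unfold e
    have := exp_lower n
    have := Nat.mul_le_mul_left a this
    omega
  have h4 : ‖1 - x ^ (2 * (n + 3) + 1)‖ ≤ (2 * n + 7) * (1 - x) := by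
    have h5 : x ^ (2 * (n + 3) + 1) ≤ 1 := pow_le_one₀ hx0.le hx1.le
    rw [Real.norm_of_nonneg (by linarith)]
    have h6 := one_sub_pow_le hx0.le (2 * (n + 3) + 1)
    push_cast at h6
    linarith
  rw [h1, one_mul]
  calc ‖x ^ e a (n + 3)‖ * ‖1 - x ^ (2 * (n + 3) + 1)‖
      ≤ (y ^ 6 * (y ^ 4) ^ n) * ((2 * n + 7) * (1 - x)) := by
        apply mul_le_mul h2 h4 (norm_nonneg _) (by positivity)
    _ = _ := by ring

lemma F_neg {a : ℕ} (ha : 1 ≤ a) {x : ℝ} (hx0 : 3 / 5 ≤ x) (hx1 : x < 1)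
    (hy : x ^ a = 3 / 5) : F a x < 0 := by
  have hxp : 0 < x := by linarith
  have hs := hasSum_g ha hxp.le hx1
  have hg : ∑' n, g a x n = F a x := hs.tsum_eq
  have hsplit := hs.summable.sum_add_tsum_nat_add 3
  rw [hg] at hsplit
  -- the tail
  have htail : ∑' n, g a x (n + 3) ≤ (1 - x) * (2 / 5) := by
    have hr : ‖((3 : ℝ) / 5) ^ 4‖ < 1 := by norm_num
    have h1 := hasSum_coe_mul_geometric_of_norm_lt_one hr
    have h2 := hasSum_geometric_of_norm_lt_one hr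
    have h3 := (((h1.mul_left 2).add (h2.mul_left 7)).mul_left ((1 - x) * (3 / 5) ^ 6))
    have hb : ∀ n : ℕ, ‖g a x (n + 3)‖ ≤
        (1 - x) * (3 / 5) ^ 6 * (2 * (n * ((3 / 5) ^ 4) ^ n) + 7 * ((3 / 5) ^ 4) ^ n) := by
      intro n
      refine (abs_g_le hxp hx1 hy n).trans (le_of_eq ?_)
      ring
    have h4 := tsum_of_norm_bounded h3 hb
    have h5 : ∑' n, g a x (n + 3) ≤ ‖∑' n, g a x (n + 3)‖ := Real.le_norm_self _
    refine h5.trans (h4.trans ?_)
    have h6 : ((3 : ℝ) / 5) ^ 6 * (2 * ((3 / 5) ^ 4 / (1 - (3 / 5) ^ 4) ^ 2)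
        + 7 * (1 - (3 / 5) ^ 4)⁻¹) ≤ 2 / 5 := by norm_num
    have h7 : 0 ≤ 1 - x := by linarith
    calc _ = (1 - x) * (((3 : ℝ) / 5) ^ 6 * (2 * ((3 / 5) ^ 4 / (1 - (3 / 5) ^ 4) ^ 2)
        + 7 * (1 - (3 / 5) ^ 4)⁻¹)) := by ring
      _ ≤ _ := mul_le_mul_of_nonneg_left h6 h7
  -- the first three terms
  have s0 : sg 0 = 1 := by decide
  have s1 : sg 1 = -1 := by decide
  have s2 : sg 2 = -1 := by decide
  have g0 : g a x 0 = 1 - x := by
    unfold g e; push_cast; rw [s0]; simp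
  have g1 : g a x 1 = -(3 / 5) * (1 - x ^ 3) := by
    unfold g e; push_cast; rw [s1]; simp [hy]
  have g2 : g a x 2 = -((3 / 5) ^ 3 * x) * (1 - x ^ 5) := by
    unfold g e; push_cast; rw [s2]
    have : x ^ (a * (2 * (2 + 1) / 2) + 2 * (2 - 1) / 2) = (3 / 5) ^ 3 * x := by
      norm_num [pow_add, pow_mul, hy]
    rw [this]; push_cast; ring
  rw [← hsplit, Finset.sum_range_succ, Finset.sum_range_succ, Finset.sum_range_one, g0, g1, g2]
  have h8 : 0 < 1 - x := by linarith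
  have key : (1 - x) + -(3 / 5) * (1 - x ^ 3) + -((3 / 5) ^ 3 * x) * (1 - x ^ 5)
      + (1 - x) * (2 / 5) = (1 - x) * (7 / 5 - 3 / 5 * (1 + x + x ^ 2)
        - 27 / 125 * x * (1 + x + x ^ 2 + x ^ 3 + x ^ 4)) := by ring
  have hx2 : (3 / 5 : ℝ) ^ 2 ≤ x ^ 2 := pow_le_pow_left₀ (by norm_num) hx0 2
  have hx3 : (3 / 5 : ℝ) ^ 3 ≤ x ^ 3 := pow_le_pow_left₀ (by norm_num) hx0 3
  have hx4 : (3 / 5 : ℝ) ^ 4 ≤ x ^ 4 := pow_le_pow_left₀ (by norm_num) hx0 4
  have hx5 : (3 / 5 : ℝ) ^ 5 ≤ x ^ 5 := pow_le_pow_left₀ (by norm_num) hx0 5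
  have key2 : (7 / 5 - 3 / 5 * (1 + x + x ^ 2)
        - 27 / 125 * x * (1 + x + x ^ 2 + x ^ 3 + x ^ 4)) < 0 := by
    have : 27 / 125 * x * (1 + x + x ^ 2 + x ^ 3 + x ^ 4)
        = 27 / 125 * (x + x ^ 2 + x ^ 3 + x ^ 4 + x ^ 5) := by ring
    rw [this]
    norm_num at hx2 hx3 hx4 hx5
    linarith
  have := mul_neg_of_pos_of_neg h8 key2
  linarith

lemma F_zero {a : ℕ} (ha : 1 ≤ a) : F a 0 = 1 := by
  unfold F
  rw [tsum_eq_single 0]
  · have h1 : (Psi a).coeff 0 = 1 := by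
      rw [coeff_eq ha]
      have : (Finset.Icc (-((0 : ℕ) : ℤ)) (0 : ℕ)).filter (fun n => expo a n = (0 : ℕ)) = {0} := by
        ext n
        simp only [Finset.mem_filter, Finset.mem_Icc, Finset.mem_singleton]
        constructor
        · rintro ⟨⟨h1, h2⟩, -⟩
          push_cast at h1 h2
          omega
        · rintro rfl
          refine ⟨by simp, ?_⟩
          simp [expo, tri]
      rw [this, Finset.sum_singleton]
      decide
    rw [h1]; simp
  · intro n hn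
    rw [zero_pow hn, mul_zero]

/-- `Ψ(-q^a, q)` has a zero in the open interval `(0, 1)`. -/
lemma exists_zero {a : ℕ} (ha : 1 ≤ a) : ∃ x : ℝ, 0 < x ∧ x < 1 ∧ F a x = 0 := by
  have ha0 : (a : ℝ) ≠ 0 := by
    have : (1 : ℝ) ≤ a := by exact_mod_cast ha
    positivity
  set y : ℝ := (3 / 5 : ℝ) ^ ((1 : ℝ) / a) with hydef
  have hya : y ^ a = 3 / 5 := by
    rw [hydef, ← Real.rpow_natCast, ← Real.rpow_mul (by norm_num), one_div,
      inv_mul_cancel₀ ha0, Real.rpow_one]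
  have hy1 : y < 1 := Real.rpow_lt_one (by norm_num) (by norm_num) (by positivity)
  have hy0 : 0 ≤ y := Real.rpow_nonneg (by norm_num) _
  have hy35 : 3 / 5 ≤ y := by
    rw [← hya]
    exact pow_le_of_le_one hy0 hy1.le (by omega)
  have hneg := F_neg ha hy35 hy1 hya
  have hpos := F_zero ha
  have hcont := continuousOn_F ha hy0 hy1
  have hmem : (0 : ℝ) ∈ Set.Icc (F a y) (F a 0) := ⟨hneg.le, by rw [hpos]; norm_num⟩
  obtain ⟨x, hx, hFx⟩ := intermediate_value_Icc' hy0 hcont hmem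
  refine ⟨x, ?_, lt_of_le_of_lt hx.2 hy1, hFx⟩
  rcases eq_or_lt_of_le hx.1 with h | h
  · rw [← h, hpos] at hFx
    norm_num at hFx
  · exact h

/-- **Exponential growth.**  For every `a ≥ 1` the series `Ψ(-q^a, q)` has a unique inverse
`∑ c(n) q^n` among formal power series with integer coefficients, and for its coefficients there
is `β > 1` with `|c(n)| ≥ β^n` for infinitely many `n`. -/
theorem result (a : ℕ) (ha : 1 ≤ a) :
    ∃ c : ℕ → ℤ, Psi a * PowerSeries.mk c = 1 ∧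
      (∀ c' : ℕ → ℤ, Psi a * PowerSeries.mk c' = 1 → c' = c) ∧
      ∃ β : ℝ, 1 < β ∧ ∃ᶠ n in atTop, β ^ n ≤ |(c n : ℝ)| := by
  have hc0 : PowerSeries.constantCoeff (Psi a) = 1 := by
    have := F_zero ha
    unfold F at this
    rw [tsum_eq_single 0] at this
    · simp only [pow_zero, mul_one] at this
      rw [← PowerSeries.coeff_zero_eq_constantCoeff_apply]
      exact_mod_cast this
    · intro n hn
      rw [zero_pow hn, mul_zero]
  have hinv : ∃ c : ℕ → ℤ, Psi a * PowerSeries.mk c = 1 := by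
    refine ⟨fun n => (PowerSeries.invOfUnit (Psi a) 1).coeff n, ?_⟩
    have h1 : PowerSeries.mk (fun n => (PowerSeries.invOfUnit (Psi a) 1).coeff n) =
        PowerSeries.invOfUnit (Psi a) 1 := by
      ext n; simp
    rw [h1]
    exact PowerSeries.mul_invOfUnit _ _ (by rw [hc0]; simp)
  obtain ⟨c, hc⟩ := hinv
  refine ⟨c, hc, ?_, ?_⟩
  swap
  · obtain ⟨x, hx0, hx1, hFx⟩ := exists_zero ha
    -- choose `β` with `β x < 1`
    obtain ⟨β, hβ1, hβ2⟩ : ∃ β : ℝ, 1 < β ∧ β * x < 1 := by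
      refine ⟨(1 + x⁻¹) / 2, ?_, ?_⟩
      · have := (one_lt_inv₀ hx0).2 hx1
        linarith
      · have h1 : (1 + x⁻¹) / 2 * x = (x + 1) / 2 := by
          field_simp
        rw [h1]; linarith
    refine ⟨β, hβ1, ?_⟩
    by_contra hcon
    rw [Filter.not_frequently] at hcon
    have hcs : Summable (fun n => ‖(c n : ℝ) * x ^ n‖) := by
      have hgeo : Summable (fun n : ℕ => (β * x) ^ n) :=
        summable_geometric_of_lt_one (by positivity) hβ2
      apply summable_of_isBigO_nat hgeo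
      apply Asymptotics.IsBigO.of_bound 1
      filter_upwards [hcon] with n hn
      push Not at hn
      rw [one_mul, norm_norm, norm_mul, mul_pow, norm_mul, Real.norm_eq_abs]
      have h2 : ‖β ^ n‖ = β ^ n := Real.norm_of_nonneg (by positivity)
      rw [h2]
      exact mul_le_mul_of_nonneg_right hn.le (norm_nonneg _)
    have hprod := tsum_mul_tsum_eq_tsum_sum_antidiagonal_of_summable_norm
      (summable_F ha hx0.le hx1) hcs
    have h3 : ∀ n : ℕ, ∑ kl ∈ Finset.HasAntidiagonal.antidiagonal n,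
        (((Psi a).coeff kl.1 : ℝ) * x ^ kl.1) * ((c kl.2 : ℝ) * x ^ kl.2) =
        if n = 0 then 1 else 0 := by
      intro n
      have h4 := congrArg (PowerSeries.coeff n) hc
      rw [PowerSeries.coeff_mul, PowerSeries.coeff_one] at h4
      simp only [PowerSeries.coeff_mk] at h4
      have h5 : ∑ kl ∈ Finset.HasAntidiagonal.antidiagonal n,
          (((Psi a).coeff kl.1 : ℝ) * x ^ kl.1) * ((c kl.2 : ℝ) * x ^ kl.2) =
          (∑ kl ∈ Finset.HasAntidiagonal.antidiagonal n, ((Psi a).coeff kl.1 : ℝ) * (c kl.2 : ℝ)) * x ^ n := by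
        rw [Finset.sum_mul]
        apply Finset.sum_congr rfl
        intro kl hkl
        rw [Finset.HasAntidiagonal.mem_antidiagonal] at hkl
        rw [← hkl, pow_add]
        ring
      rw [h5]
      have h6 : (∑ kl ∈ Finset.HasAntidiagonal.antidiagonal n, ((Psi a).coeff kl.1 : ℝ) * (c kl.2 : ℝ)) =
          ((if n = 0 then 1 else 0 : ℤ) : ℝ) := by
        rw [← h4]; push_cast; rfl
      rw [h6]
      split_ifs with hn
      · rw [hn]; simp
      · simp
    simp_rw [h3] at hprod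
    have h7 : ∑' N : ℕ, ((Psi a).coeff N : ℝ) * x ^ N = 0 := hFx
    rw [h7, zero_mul, tsum_ite_eq] at hprod
    norm_num at hprod
  · intro c' hc'
    have h1 : PowerSeries.mk c' = PowerSeries.mk c := by
      have h2 : PowerSeries.mk c * (Psi a * PowerSeries.mk c') = PowerSeries.mk c := by
        rw [hc', mul_one]
      rw [← h2, ← mul_assoc, mul_comm (PowerSeries.mk c) (Psi a), hc, one_mul]
    funext n
    have := congrArg (PowerSeries.coeff n) h1
    simpa using this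

end Pool.Agent.Results.MP_0ebc21_nt.ExponentialGrowth
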